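import Pool.Agent.Q44.WK.Stm

/-! Project WK (helper44), job WK-GD (helper96): good reduction at almost all places. -/

set_option autoImplicit false

namespace Pool.Agent.Q96.WK.GD

open Pool.Agent.Q44.WK MvPolynomial

section Maps

variable {R S : Type} [CommRing R] [CommRing S]

lemma cr_map (φ : R →+* S) (v : V R) (i j : Fin 3) : φ (Dat.cr v i j) = Dat.cr (fun a => φ (v a)) i j := by
  fin_cases i <;> fin_cases j <;> simp [Dat.cr]

lemma G_map (φ : R →+* S) (D : Dat R) (x : V R) (a b : Fin 3) :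
    φ (D.G x a b) = (D.map φ).G (fun i => φ (x i)) a b := by
  have hlam : (fun i => φ (D.lam x i)) = (D.map φ).lam (fun i => φ (x i)) := by
    funext j
    simp only [Dat.lam, Dat.map, map_sum, map_mul]
  unfold Dat.G
  rw [map_sum]
  refine Finset.sum_congr rfl fun k _ => ?_
  rw [map_sum]
  refine Finset.sum_congr rfl fun l _ => ?_
  rw [map_mul, map_mul, cr_map, cr_map, hlam]
  congr 2
  simp only [Dat.sym, Dat.map, map_sum, map_mul, map_add]

lemma eval_GP (φ : R →+* S) (D : Dat R) (x : V S) (a b : Fin 3) :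
    eval₂Hom φ x (D.GP a b) = (D.map φ).G x a b := by
  unfold Dat.GP
  rw [G_map]
  have h1 : (D.map (C : R →+* MvPolynomial (Fin 3) R)).map (eval₂Hom φ x) = D.map φ := by
    simp only [Dat.map, eval₂Hom_C]
  have h2 : (fun i => eval₂Hom φ x (X i : MvPolynomial (Fin 3) R)) = x := by
    funext i
    rw [eval₂Hom_X']
  rw [h1, h2]

end Maps

section Norm

variable {L : Type} [NontriviallyNormedField L] [IsUltrametricDist L]

/-- the ring of integers -/
noncomputable def OO (L : Type) [NontriviallyNormedField L] [IsUltrametricDist L] : Subring L :=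
  (NormedField.valuation (K := L)).integer

lemma mem_OO (x : L) : x ∈ OO L ↔ ‖x‖ ≤ 1 := by
  unfold OO
  rw [Valuation.mem_integer_iff, NormedField.valuation_apply, ← NNReal.coe_le_coe, coe_nnnorm, NNReal.coe_one]

lemma integral_mem (x : L) (hx : IsIntegral ℤ x) : x ∈ OO L := by
  have h1 : IsIntegral (NormedField.valuation (K := L)).integer x := hx.tower_top
  exact (Valuation.integer.integers (NormedField.valuation (K := L))).mem_of_integral h1

lemma G_mem (D : Dat L) (ha : ∀ i j, ‖D.a i j‖ ≤ 1) (hb : ∀ i j k l, ‖D.b i j k l‖ ≤ 1) (x : V L) (hx : ∀ i, ‖x i‖ ≤ 1)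
    (a b : Fin 3) : ‖D.G x a b‖ ≤ 1 := by
  obtain ⟨D', hD'⟩ : ∃ D' : Dat (OO L), D = D'.map (OO L).subtype :=
    ⟨⟨fun i j => ⟨D.a i j, (mem_OO _).2 (ha i j)⟩, fun i j k l => ⟨D.b i j k l, (mem_OO _).2 (hb i j k l)⟩⟩, rfl⟩
  have h1 := G_map (OO L).subtype D' (fun i => ⟨x i, (mem_OO _).2 (hx i)⟩) a b
  rw [← hD'] at h1
  have h2 : D.G x a b = (OO L).subtype (D'.G (fun i => ⟨x i, (mem_OO _).2 (hx i)⟩) a b) := h1.symm
  rw [h2]
  exact (mem_OO _).1 (Subtype.property _)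

lemma good_one {K : Type} [Field K] (σ : K →+* L) (D : Dat K) (M : ℕ)
    (q : Fin 3 × (Fin 3 × Fin 3) → MvPolynomial (Fin 3) K)
    (hq : ∀ k : Fin 3, ∑ j : Fin 3 × Fin 3, q (k, j) * D.GP j.1 j.2 = X k ^ (M + 4))
    (ha : ∀ i j, ‖(D.map σ).a i j‖ ≤ 1) (hb : ∀ i j k l, ‖(D.map σ).b i j k l‖ ≤ 1)
    (hc : ∀ t, ∀ d ∈ (q t).support, ‖σ ((q t).coeff d)‖ ≤ 1) (x : V L) (hx : ‖x‖ = 1) :
    ∃ a b, ‖(D.map σ).G x a b‖ = 1 := by
  have hxi : ∀ i, ‖x i‖ ≤ 1 := fun i => (norm_le_pi_norm x i).trans hx.le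
  obtain ⟨k, hk⟩ : ∃ k, ‖x k‖ = 1 := by
    by_contra hcon
    push Not at hcon
    have h1 : ∀ i, ‖x i‖ < 1 := fun i => lt_of_le_of_ne (hxi i) (hcon i)
    have h2 : ‖x‖ < 1 := (pi_norm_lt_iff one_pos).2 h1
    linarith
  have h1 := congrArg (eval₂Hom σ x) (hq k)
  rw [map_sum, map_pow, eval₂Hom_X'] at h1
  have h2 : ‖x k ^ (M + 4)‖ = 1 := by rw [norm_pow, hk, one_pow]
  obtain ⟨j, -, hj⟩ := IsUltrametricDist.exists_norm_finsetSum_le_of_nonempty
    (Finset.univ_nonempty (α := Fin 3 × Fin 3)) (fun j => eval₂Hom σ x (q (k, j) * D.GP j.1 j.2))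
  rw [h1, h2, map_mul, norm_mul, eval_GP] at hj
  have h3 : ‖eval₂Hom σ x (q (k, j))‖ ≤ 1 := by
    rw [← mem_OO, coe_eval₂Hom, eval₂_eq']
    refine Subring.sum_mem _ fun d hd => Subring.mul_mem _ ?_ (Subring.prod_mem _ fun i _ => Subring.pow_mem _ ?_ _)
    · exact (mem_OO _).2 (hc (k, j) d hd)
    · exact (mem_OO _).2 (hxi i)
  have h4 := G_mem (D.map σ) ha hb x hxi j.1 j.2
  refine ⟨j.1, j.2, le_antisymm h4 (hj.trans ?_)⟩
  exact mul_le_of_le_one_left (norm_nonneg _) h3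

end Norm

theorem main (h : S_null) : S_good := by
  classical
  intro K _ _ D hF hF'
  obtain ⟨M, q, -, hq⟩ := h K D hF
  obtain ⟨M', q', -, hq'⟩ := h K D.swap hF'
  obtain ⟨T, hT⟩ : ∃ T : Finset K, T = (Finset.univ.image fun p : Fin 3 × Fin 3 => D.a p.1 p.2) ∪
      (Finset.univ.image fun p : (Fin 3 × Fin 3) × (Fin 3 × Fin 3) => D.b p.1.1 p.1.2 p.2.1 p.2.2) ∪
      (Finset.univ.biUnion fun t => (q t).support.image fun d => (q t).coeff d) ∪
      (Finset.univ.biUnion fun t => (q' t).support.image fun d => (q' t).coeff d) := ⟨_, rfl⟩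
  obtain ⟨y, hy0, hy⟩ := exists_integral_multiples ℤ ℚ T
  refine ⟨2 * y.natAbs, mul_ne_zero two_ne_zero (Int.natAbs_ne_zero.2 hy0), ?_⟩
  intro L _ _ σ hN
  rw [Nat.cast_mul, norm_mul] at hN
  have h2le : ‖((2 : ℕ) : L)‖ ≤ 1 := IsUltrametricDist.norm_natCast_le_one L 2
  have hyle : ‖((y.natAbs : ℕ) : L)‖ ≤ 1 := IsUltrametricDist.norm_natCast_le_one L _
  have h21 : ‖((2 : ℕ) : L)‖ = 1 := by
    refine le_antisymm h2le ?_
    rw [← hN]
    exact mul_le_of_le_one_right (norm_nonneg _) hyle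
  have hy1 : ‖((y.natAbs : ℕ) : L)‖ = 1 := by
    rw [h21, one_mul] at hN
    exact hN
  have hy2 : ‖(y : L)‖ = 1 := by
    rcases Int.natAbs_eq y with h3 | h3
    · rw [h3, Int.cast_natCast]
      exact hy1
    · rw [h3, Int.cast_neg, Int.cast_natCast, norm_neg]
      exact hy1
  have hint : ∀ x ∈ T, ‖σ x‖ ≤ 1 := by
    intro x hx
    have h3 : IsIntegral ℤ (σ (y • x)) := (hy x hx).map σ.toIntAlgHom
    have h4 := (mem_OO _).1 (integral_mem _ h3)
    rw [zsmul_eq_mul, map_mul, map_intCast, norm_mul, hy2, one_mul] at h4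
    exact h4
  have hTa : ∀ i j, D.a i j ∈ T := by
    intro i j
    rw [hT]
    simp only [Finset.mem_union, Finset.mem_image, Finset.mem_univ, true_and]
    exact Or.inl (Or.inl (Or.inl ⟨(i, j), rfl⟩))
  have hTb : ∀ i j k l, D.b i j k l ∈ T := by
    intro i j k l
    rw [hT]
    simp only [Finset.mem_union, Finset.mem_image, Finset.mem_univ, true_and]
    exact Or.inl (Or.inl (Or.inr ⟨((i, j), (k, l)), rfl⟩))
  have hTq : ∀ t, ∀ d ∈ (q t).support, (q t).coeff d ∈ T := by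
    intro t d hd
    rw [hT]
    refine Finset.mem_union_left _ (Finset.mem_union_right _ ?_)
    exact Finset.mem_biUnion.2 ⟨t, Finset.mem_univ t, Finset.mem_image_of_mem _ hd⟩
  have hTq' : ∀ t, ∀ d ∈ (q' t).support, (q' t).coeff d ∈ T := by
    intro t d hd
    rw [hT]
    refine Finset.mem_union_right _ ?_
    exact Finset.mem_biUnion.2 ⟨t, Finset.mem_univ t, Finset.mem_image_of_mem _ hd⟩
  refine ⟨fun i j => hint _ (hTa i j), fun i j k l => hint _ (hTb i j k l), ?_, fun x hx => ⟨?_, ?_⟩⟩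
  · rw [Nat.cast_ofNat] at h21
    exact h21
  · exact good_one σ D M q hq (fun i j => hint _ (hTa i j)) (fun i j k l => hint _ (hTb i j k l))
      (fun t d hd => hint _ (hTq t d hd)) x hx
  · exact good_one σ D.swap M' q' hq' (fun i j => hint _ (hTa j i)) (fun i j k l => hint _ (hTb k l i j))
      (fun t d hd => hint _ (hTq' t d hd)) x hx

end Pool.Agent.Q96.WK.GD
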