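import Pool.Agent.Q44.WK.Stm

/-! Project WK (helper44), job WK-UB (helper96): chains of large height are unbounded. -/

set_option autoImplicit false

namespace Pool.Agent.Q96.WK.UB

open Pool.Agent.Q44.WK Height

/-- periodic sequences of real numbers -/
lemma periodic_max (u : ℕ → ℝ) (n : ℕ) (hn : 0 < n) (hp : ∀ i, u i = u (i + n)) :
    ∃ k, 0 < k ∧ ∀ i, u i ≤ u k := by
  obtain ⟨k, hk, hmax⟩ := Finset.exists_max_image (Finset.Icc 1 n) u ⟨1, Finset.mem_Icc.2 ⟨le_refl 1, hn⟩⟩
  refine ⟨k, (Finset.mem_Icc.1 hk).1, fun i => ?_⟩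
  have h : ∀ m i, i ≤ m → u i ≤ u k := by
    intro m
    induction m with
    | zero =>
      intro i hi
      have h0 : i = 0 := by omega
      rw [h0, hp 0, zero_add]
      exact hmax n (Finset.mem_Icc.2 ⟨hn, le_refl n⟩)
    | succ m ih =>
      intro i hi
      rcases Nat.eq_zero_or_pos i with h0 | h0
      · exact ih i (by omega)
      · rcases le_or_gt i n with h1 | h1
        · exact hmax i (Finset.mem_Icc.2 ⟨h0, h1⟩)
        · have h2 := hp (i - n)
          have h3 : i - n + n = i := by omega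
          rw [h3] at h2
          rw [← h2]
          exact ih (i - n) (by omega)
  exact h i i le_rfl

theorem main (h1 : S_nc) (h2 : S_uni) : S_unb := by
  intro K _ _ D c hc z hz hlarge B
  by_contra hcon
  push Not at hcon
  have hz0 : ∀ k, z k ≠ 0 := fun k => (hz k).1.1
  obtain ⟨S, hS⟩ := h1 K B
  have hrep : ∀ k, ∃ s : S, ∃ t : K, t ≠ 0 ∧ z k = t • (s : V K) := by
    intro k
    obtain ⟨s, hs, t, ht, hzt⟩ := hS (z k) (hz0 k) (hcon k)
    exact ⟨⟨s, hs⟩, t, ht, hzt⟩
  choose r hr using hrep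
  obtain ⟨k, l, hkl, heq⟩ := Finite.exists_ne_map_eq_of_infinite
    (fun k : ℕ => ((⟨k % 2, Nat.mod_lt k two_pos⟩ : Fin 2), r k, r (k + 1)))
  have key : ∀ k l : ℕ, k < l → k % 2 = l % 2 → r k = r l → r (k + 1) = r (l + 1) → False := by
    intro k l hlt hpar he1 he2
    have hprop : ∀ i j, r i = r j → ∃ s : K, s ≠ 0 ∧ z i = s • z j := by
      intro i j hij
      obtain ⟨t, ht, hzt⟩ := hr i
      obtain ⟨t', ht', hzt'⟩ := hr j
      refine ⟨t * t'⁻¹, mul_ne_zero ht (inv_ne_zero ht'), ?_⟩
      rw [hzt', smul_smul, mul_assoc, inv_mul_cancel₀ ht', mul_one, ← hij]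
      exact hzt
    have htwo : (2 : K) ≠ 0 := two_ne_zero
    obtain ⟨hf, hb⟩ := h2 K htwo D z hz k l hpar (hprop k l he1) (hprop (k + 1) (l + 1) he2)
    have hper : ∀ i, logHeight (z i) = logHeight (z (i + (l - k))) := by
      intro i
      rcases le_or_gt k i with h | h
      · obtain ⟨s, hs, he⟩ := hf (i - k)
        have e1 : k + (i - k) = i := by omega
        have e2 : l + (i - k) = i + (l - k) := by omega
        rw [e1, e2] at he
        rw [he, logHeight_smul_eq_logHeight _ hs]
      · obtain ⟨s, hs, he⟩ := hb (k - i) (by omega) (by omega)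
        have e1 : k - (k - i) = i := by omega
        have e2 : l - (k - i) = i + (l - k) := by omega
        rw [e1, e2] at he
        rw [he, logHeight_smul_eq_logHeight _ hs]
    obtain ⟨m, hm, hmax⟩ := periodic_max (fun i => logHeight (z i)) (l - k) (by omega) hper
    obtain ⟨m', rfl⟩ : ∃ m', m = m' + 1 := ⟨m - 1, by omega⟩
    have hadj : D.Adj (z (m' + 1)) (z m') (z (m' + 2)) ∨ D.swap.Adj (z (m' + 1)) (z m') (z (m' + 2)) := by
      have h3 := (hz m').2
      unfold Dat.alt at h3
      split_ifs at h3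
      · exact Or.inl h3
      · exact Or.inr h3
    have h4 := hc _ _ _ (hz0 (m' + 1)) (hz0 m') (hz0 (m' + 2)) hadj
    have h5 := hmax m'
    have h6 := hmax (m' + 2)
    have h7 := hmax 0
    have h8 := hmax 1
    rcases hlarge with h | h <;> linarith
  simp only [Prod.mk.injEq, Fin.mk.injEq] at heq
  rcases lt_or_gt_of_ne hkl with h | h
  · exact key k l h heq.1 heq.2.1 heq.2.2
  · exact key l k h heq.1.symm heq.2.1.symm heq.2.2.symm

end Pool.Agent.Q96.WK.UB
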